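import Mathlib
import Pool.Agent.Lib.CDC.NearHam

/-!
# Prescribed circuits in double covers of near-Hamiltonian cubic graphs

In a cubic multigraph of order `n` with circumference at least `n - 1`, every circuit is a member
of a circuit double cover.

Proof.  Theorem A (`Pool.Agent.Lib.CDC.MultiGraph.five_cover`): if a multigraph has an `F_4`-flow
that does not vanish off the circuit `C`, then five even subgraphs, one of them `C`, cover every
edge exactly twice.  The theorem is applied either to the given circuit or to the longest circuit
(in the subgraph obtained by deleting the edges of `C` off the longest circuit).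
-/

set_option autoImplicit false

namespace Pool.Agent.Results.MP_ff63d6_co.PrescribedCircuit

open Pool.Agent.Lib.CDC

/-- Let `G` be a cubic loopless multigraph of order `n` with a circuit `L` of length at least
`n - 1`.  Then every circuit `C` of `G` is a member of a circuit double cover of `G`. -/
theorem result {V E : Type*} [Fintype V] [Fintype E] (G : MultiGraph V E) (hcubic : G.IsCubic)
    (hcirc : ∃ L : Finset E, G.IsCircuit L ∧ Fintype.card V ≤ L.card + 1)
    (C : Finset E) (hC : G.IsCircuit C) :
    ∃ 𝓕 : Multiset (Finset E), G.IsCircuitDoubleCover 𝓕 ∧ C ∈ 𝓕 :=
  G.exists_cdc_near_hamiltonian hcubic hcirc hC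

end Pool.Agent.Results.MP_ff63d6_co.PrescribedCircuit
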